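import Pool.Agent.W23.SG.All

/-!
Almost prime values of `a + q d` for `q` in an arbitrary, possibly sparse, set of primes.
-/

set_option autoImplicit false

namespace Pool.Agent.Results.MP_8bf9c2_nt.AlmostPrimesDenseSets

/-- the `q ∈ Q`, `a + q d ≠ 0`, such that `|a + q d| = m s`, all prime factors of `m` are smaller
than `X^ε`, and `s` is a product of at most three primes, each at least `X^(1/8)` -/
def good (Q : Finset ℕ) (a : ℤ) (d : ℕ) (X : ℕ) (ε : ℝ) : Set ℕ :=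
  {q : ℕ | q ∈ Q ∧ a + q * d ≠ 0 ∧ ∃ m s : ℕ, (a + (q : ℤ) * d).natAbs = m * s ∧
    (∀ l : ℕ, l.Prime → l ∣ m → (l : ℝ) < (X : ℝ) ^ ε) ∧ s.primeFactorsList.length ≤ 3 ∧
    ∀ l : ℕ, l.Prime → l ∣ s → (X : ℝ) ^ (1 / 8 : ℝ) ≤ l}

/-- For every `ε > 0` there are `c, η > 0` and `C` such that, for every `X ≥ 2` and every set `Q` of
primes up to `X` with at least `X^(1-η)` elements, for all but at most `C X / (|Q| log X)` of the
coprime pairs `(a, d)` with `|a| ≤ X^(4/3)` and `1 ≤ d ≤ X^(1/3)` at least `c |Q|` of the `q ∈ Q`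
are such that `0 ≠ |a + q d| = m s`, where all prime factors of `m` are smaller than `X^ε` and `s`
is a product of at most three primes, each at least `X^(1/8)`. -/
theorem result (ε : ℝ) (hε : 0 < ε) :
    ∃ c C η : ℝ, 0 < c ∧ 0 < η ∧ ∀ X : ℕ, 2 ≤ X → ∀ Q : Finset ℕ, (∀ q ∈ Q, q.Prime ∧ q ≤ X) →
      (X : ℝ) ^ (1 - η) ≤ Q.card →
      ({P : ℤ × ℕ | Int.gcd P.1 P.2 = 1 ∧ |(P.1 : ℝ)| ≤ (X : ℝ) ^ (4 / 3 : ℝ) ∧ 1 ≤ P.2 ∧
          (P.2 : ℝ) ≤ (X : ℝ) ^ (1 / 3 : ℝ) ∧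
          ((good Q P.1 P.2 X ε).ncard : ℝ) < c * Q.card}.ncard : ℝ) ≤
        C * (X / (Q.card * Real.log X)) := by
  classical
  obtain ⟨c, C, η, hc, hη, h⟩ := Pool.Agent.W23.SG.linear_forms ε hε
  refine ⟨c, C, η, hc, hη, ?_⟩
  intro X hX Q hQ hQc
  set S : Set (ℤ × ℕ) := {P : ℤ × ℕ | Int.gcd P.1 P.2 = 1 ∧ |(P.1 : ℝ)| ≤ (X : ℝ) ^ (4 / 3 : ℝ) ∧
    1 ≤ P.2 ∧ (P.2 : ℝ) ≤ (X : ℝ) ^ (1 / 3 : ℝ) ∧
    ((good Q P.1 P.2 X ε).ncard : ℝ) < c * Q.card} with hS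
  have key : ∀ E : Finset (ℤ × ℕ), (E : Set (ℤ × ℕ)) ⊆ S →
      (E.card : ℝ) ≤ C * (X / (Q.card * Real.log X)) := by
    intro E hE
    apply h X hX Q hQ hQc E
    intro P hP
    obtain ⟨h1, h2, h3, h4, h5⟩ := hE (Finset.mem_coe.2 hP)
    refine ⟨h1, h2, h3, h4, lt_of_le_of_lt ?_ h5⟩
    rw [← Set.ncard_coe_finset]
    have hfin : (good Q P.1 P.2 X ε).Finite := Q.finite_toSet.subset fun p hp => hp.1
    refine Nat.cast_le.2 (Set.ncard_le_ncard ?_ hfin)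
    intro q hq
    rw [Finset.mem_coe, Finset.mem_filter] at hq
    obtain ⟨hqQ, hq0, m, s, e1, e2, e3, e4⟩ := hq
    rw [mul_comm] at hq0 e1
    have hs : s ≠ 0 := by
      rintro rfl
      rw [mul_zero, Int.natAbs_eq_zero] at e1
      exact hq0 e1
    exact ⟨hqQ, hq0, m, s, e1, e2, e3,
      fun l hl hls => e4 l (Nat.mem_primeFactors.2 ⟨hl, hls, hs⟩)⟩
  by_cases hfin : S.Finite
  · have h1 := key hfin.toFinset (by rw [hfin.coe_toFinset])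
    rw [Set.ncard_eq_toFinset_card S hfin]
    exact h1
  · rw [Set.Infinite.ncard hfin]
    have := key ∅ (by simp)
    simpa using this

end Pool.Agent.Results.MP_8bf9c2_nt.AlmostPrimesDenseSets
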