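import Pool.Agent.W25.IT.Line

/-!
# Iterates of `x ↦ a + d x`, chains of 160 maps, and lines through `(0, 1)`

For every pair `(a, d)` of the question (with `a ≠ 0`) one of the first 120 iterates of the map
`x ↦ a + d x` maps infinitely many primes to primes. The 49 linear forms theorem
(`Pool.Agent.H95R2.BG.FinalL`) is from the starting files.
-/

set_option autoImplicit false

open Finset Filter

namespace Pool.Agent.Results.MP_8bf9c2_nt.FirstIterates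

/-- the pair `(a, d)` satisfies the hypotheses and the conclusion of the question; moreover, for every
`η > 0` and arbitrarily large `x` there are at least `x ^ (1 - η)` primes `q ≤ x` with `a + q d` prime -/
def Good (a d : ℤ) : Prop :=
  Int.gcd a d = 1 ∧ 2 ∣ a * d ∧ {q : ℕ | q.Prime ∧ ∃ p : ℕ, p.Prime ∧ a + q * d = p}.Infinite ∧
    ∀ η : ℝ, 0 < η → ∃ᶠ x : ℝ in atTop, x ^ (1 - η) ≤
      ({q : ℕ | (q.Prime ∧ ∃ p : ℕ, p.Prime ∧ a + q * d = p) ∧ (q : ℝ) ≤ x}.ncard : ℝ)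

theorem result :
    (∀ a d : ℤ, 1 ≤ d → Int.gcd a d = 1 → 2 ∣ a * d → a ≠ 0 →
      (∃ j : ℕ, 1 ≤ j ∧ j ≤ 120 ∧ Good (a * ∑ i ∈ range j, d ^ i) (d ^ j)) ∧
      ∀ E : Finset ℕ, 49 ≤ E.card →
        (∀ p : ℕ, p.Prime → 3 ≤ p → p ≤ 47 → (p : ℤ) ∣ d - 1 → ¬ (p : ℤ) ∣ a →
          ∃ r : ℕ, ∀ e ∈ E, ¬ e ≡ r [MOD p]) →
        ∃ e ∈ E, ∃ e' ∈ E, e < e' ∧
          Good (a * ∑ i ∈ range (e' - e), d ^ i) (d ^ (e' - e))) ∧
    (∀ b D : Fin 160 → ℤ, (∀ i, 1 ≤ D i) → (∀ i, Int.gcd (b i) (D i) = 1) →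
      (∀ i, 2 ∣ b i * D i) → (∀ i j, i ≤ j → D i ∣ D j) →
      Function.Injective (fun i => (b i, D i)) →
      ∃ i j, i < j ∧ Good (b j - D j / D i * b i) (D j / D i)) ∧
    (∀ (u : ℤ) (v W : ℕ), u ≠ 0 → 0 < v → 0 < W →
      ∃ δ : ℝ, 0 < δ ∧ ∃ X₀ : ℕ, ∀ X : ℕ, X₀ ≤ X → δ * X ≤
        ({d : ℕ | 2 ≤ d ∧ d ≤ X ∧ d ≡ 1 [MOD W] ∧ (v : ℤ) ∣ 1 - d ∧
          Good (u * ((1 - (d : ℤ)) / v)) d}.ncard : ℝ)) :=
  ⟨fun a d hd hg h2 ha => ⟨Pool.Agent.W25.IT.iter120 a d hd hg h2 ha,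
      fun E hE h => Pool.Agent.W25.IT.iter49 a d hd hg h2 ha E hE h⟩,
    fun b D hD hcop h2 hdvd hinj => Pool.Agent.W25.IT.chain160 b D hD hcop h2 hdvd hinj,
    fun u v W hu hv hW => Pool.Agent.W25.IT.line_density u v W hu hv hW⟩

end Pool.Agent.Results.MP_8bf9c2_nt.FirstIterates
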