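import Mathlib
import Pool.Agent.W218.PF.Final8

/-!
For fixed nonzero integers `a_1, ..., a_k` and `θ < 1`, a positive proportion of all
`(d_1, ..., d_k) ∈ [1, D]^k` are such that the number of primes `q ≤ x` with all `a_i + q d_i` prime is at
least `θ` times what the Hardy-Littlewood conjecture predicts, already for `x` as small as allowed by the
trivial condition that the prediction is bounded below.
-/

set_option autoImplicit false

open Finset

namespace Pool.Agent.Results.MP_8bf9c2_nt.FixedConstantsExact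

/-- the number of residues `n` modulo `p` for which `p` divides `n (a_1 + d_1 n) ... (a_k + d_k n)` -/
def roots {k : ℕ} (a : Fin k → ℤ) (d : Fin k → ℕ) (p : ℕ) : ℕ :=
  ((range p).filter (fun n : ℕ => (p : ℤ) ∣ (n : ℤ) * ∏ i, (a i + (d i : ℤ) * n))).card

/-- the singular series of the forms `n, a_1 + d_1 n, ..., a_k + d_k n` -/
noncomputable def series {k : ℕ} (a : Fin k → ℤ) (d : Fin k → ℕ) : ℝ :=
  ∏' p : Nat.Primes, (1 - (roots a d p : ℝ) / ((p : ℕ) : ℝ)) / (1 - 1 / ((p : ℕ) : ℝ)) ^ (k + 1)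

/-- no prime divides `n (a_1 + d_1 n) ... (a_k + d_k n)` for every `n` -/
def Admissible {k : ℕ} (a : Fin k → ℤ) (d : Fin k → ℕ) : Prop :=
  ∀ p : ℕ, p.Prime → ∃ n : ℕ, ¬ (p : ℤ) ∣ (n : ℤ) * ∏ i, (a i + (d i : ℤ) * n)

/-- the number of primes `q ≤ x` for which all `a_i + q d_i` are prime -/
noncomputable def count {k : ℕ} (a : Fin k → ℤ) (d : Fin k → ℕ) (x : ℕ) : ℕ :=
  {q : ℕ | q ≤ x ∧ q.Prime ∧ ∀ i, ∃ p : ℕ, p.Prime ∧ a i + (q : ℤ) * d i = p}.ncard

theorem result (k : ℕ) (hk : 1 ≤ k) : ∃ K : ℕ, ∀ a : Fin k → ℤ, (∀ i, a i ≠ 0) →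
    ∀ c θ : ℝ, 0 < c → θ < 1 → ∃ κ : ℝ, 0 < κ ∧ ∃ D₀ : ℕ, ∀ D x : ℕ, D₀ ≤ D →
      c * Real.log D ^ k ≤ x / Real.log x → x * Real.log D ^ K ≤ D →
      κ * D ^ k ≤ ({d : Fin k → ℕ | (∀ i, 1 ≤ d i ∧ d i ≤ D ∧ Int.gcd (a i) (d i) = 1) ∧
        Admissible a d ∧
        θ * series a d * (x / (Real.log x * Real.log (D * x) ^ k)) ≤ count a d x}.ncard : ℝ) := by
  classical
  obtain ⟨K, h⟩ := Pool.Agent.W218.PF.final8 k hk
  refine ⟨K, fun a ha c θ hc hθ => ?_⟩
  obtain ⟨κ, hκ, D0, h⟩ := h a ha c hc θ hθ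
  refine ⟨κ, hκ, D0, fun D x hD hcx hxD => ?_⟩
  refine (h D hD x hcx hxD).trans ?_
  have hcount : ∀ d : Fin k → ℕ, Pool.Agent.W218.PF.numQ a d x ≤ count a d x := by
    intro d
    unfold Pool.Agent.W218.PF.numQ count
    rw [← Set.ncard_coe_finset]
    apply Set.ncard_le_ncard
    · intro q hq
      rw [mem_coe, mem_filter, mem_Icc] at hq
      refine ⟨hq.1.2, hq.2.1, fun i => ⟨(a i + q * d i).toNat, hq.2.2 i, ?_⟩⟩
      have hnn : 0 ≤ a i + (q : ℤ) * d i := by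
        by_contra hneg
        push Not at hneg
        have h2 : (a i + (q : ℤ) * d i).toNat = 0 := Int.toNat_of_nonpos hneg.le
        have := hq.2.2 i
        rw [h2] at this
        exact Nat.not_prime_zero this
      rw [Int.toNat_of_nonneg hnn]
    · exact (Set.finite_Iic x).subset fun q hq => hq.1
  have hfin : {d : Fin k → ℕ | (∀ i, 1 ≤ d i ∧ d i ≤ D ∧ Int.gcd (a i) (d i) = 1) ∧ Admissible a d ∧
        θ * series a d * (x / (Real.log x * Real.log (D * x) ^ k)) ≤ count a d x}.Finite := by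
    apply ((Fintype.piFinset (fun _ : Fin k => Icc 1 D)).finite_toSet).subset
    intro d hd
    rw [mem_coe, Fintype.mem_piFinset]
    intro i
    exact mem_Icc.2 ⟨(hd.1 i).1, (hd.1 i).2.1⟩
  rw [← Set.ncard_coe_finset]
  refine Nat.cast_le.2 (Set.ncard_le_ncard ?_ hfin)
  intro d hd
  rw [mem_coe, mem_filter, Fintype.mem_piFinset] at hd
  obtain ⟨h1, h2, h3, h4⟩ := hd
  refine ⟨fun i => ⟨(mem_Icc.1 (h1 i)).1, (mem_Icc.1 (h1 i)).2, h2 i⟩, h3, ?_⟩
  exact h4.trans (Nat.cast_le.2 (hcount d))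

end Pool.Agent.Results.MP_8bf9c2_nt.FixedConstantsExact
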