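import Pool.Agent.W25.IT.Win

/-!
# Good iterates of `x ↦ a + d x` in every long window of exponents, and chains of primes

The coloured Maynard-Tao theorem (`Pool.Agent.H732R3.QuarterB`) is from the starting files, the
combinatorial density argument is from the team's files `Pool.Agent.W59.GB`.
-/

set_option autoImplicit false

open Finset Filter

namespace Pool.Agent.Results.MP_8bf9c2_nt.WindowsOfIterates

open Classical in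
theorem result :
    (∀ a d : ℤ, 1 ≤ d → Int.gcd a d = 1 → 2 ∣ a * d → a ≠ 0 → ∀ ε : ℝ, 0 < ε →
      ∃ L : ℕ, ∀ M : ℕ, L ≤ M → ∀ u : ℕ,
        ((if 3 ∣ d - 1 ∧ ¬ 3 ∣ a then (1 / 6 : ℝ) else if 5 ∣ d - 1 ∧ ¬ 5 ∣ a then 1 / 5 else 1 / 4)
            - ε) * (M : ℝ) ≤
          ({j : ℕ | u < j ∧ j ≤ u + M ∧
            {q : ℕ | q.Prime ∧ ∃ p : ℕ, p.Prime ∧
              a * ∑ i ∈ range j, d ^ i + q * d ^ j = p}.Infinite ∧
            ∀ η : ℝ, 0 < η → ∃ᶠ x : ℝ in atTop, x ^ (1 - η) ≤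
              ({q : ℕ | (q.Prime ∧ ∃ p : ℕ, p.Prime ∧
                a * ∑ i ∈ range j, d ^ i + q * d ^ j = p) ∧ (q : ℝ) ≤ x}.ncard : ℝ)}.ncard : ℝ)) ∧
    ∀ m : ℕ, ∃ J : ℕ, ∀ a d : ℤ, 1 ≤ d → Int.gcd a d = 1 → 2 ∣ a * d → a ≠ 0 →
      ∃ T : Finset ℕ, T.card = m ∧ (∀ j ∈ T, 1 ≤ j ∧ j ≤ J) ∧
        ∀ η : ℝ, 0 < η → ∃ᶠ x : ℝ in atTop, x ^ (1 - η) ≤
          ({q : ℕ | (q.Prime ∧ ∀ j ∈ T, ∃ p : ℕ, p.Prime ∧
            a * ∑ i ∈ range j, d ^ i + q * d ^ j = p) ∧ (q : ℝ) ≤ x}.ncard : ℝ) := by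
  refine ⟨fun a d hd hg h2 ha ε hε => ?_, fun m => ?_⟩
  · obtain ⟨L, hL⟩ := Pool.Agent.W25.IT.windows a d hd hg h2 ha ε hε
    refine ⟨L, fun M hM u => (hL M hM u).trans ?_⟩
    rw [Pool.Agent.W59.GB.win_eq, Nat.cast_le, ← Set.ncard_coe_finset]
    refine Set.ncard_le_ncard ?_ ((Set.finite_Ioc u (u + M)).subset ?_)
    · intro j hj
      rw [Finset.coe_filter, Set.mem_ofPred_eq, Finset.mem_Ioc] at hj
      exact ⟨hj.1.1, hj.1.2, hj.2.2.2.1, hj.2.2.2.2⟩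
    · intro j hj
      exact ⟨hj.1, hj.2.1⟩
  · obtain ⟨J, hJ⟩ := Pool.Agent.W25.IT.chains m
    refine ⟨J, fun a d hd hg h2 ha => ?_⟩
    obtain ⟨T, h3, h4, h5⟩ := hJ a d hd hg h2 ha
    exact ⟨T, h3, h4, h5⟩

end Pool.Agent.Results.MP_8bf9c2_nt.WindowsOfIterates
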